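import Pool.Agent.R679.N300

/-!
# No nonsolvable group of order 300 has a minimal order sequence

A nonsolvable group `G` of order `300` has a central subgroup `C` of order `5` (the intersection of
the six Sylow 5-subgroups), so it has at most `36` elements of order prime to `5`, and `125`
elements of order dividing `25`. It has at least `10` elements of order `3`. So it has at most `26`
elements of order at most `2`, at most `36` of order at most `4`, and at most `161` of order at
most `5`. The Frobenius group `H` with the kernel of order `25` and the dicyclic complement of order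
`12` has `26` elements of order at most `2`, `76` of order at most `3`, `226` of order at most `4`,
and no elements of order greater than `6`. So the order sequence of `G` dominates the one of the
solvable group `H` and is different from it.
-/

set_option autoImplicit false

namespace Pool.Agent.Results.MP_e15593_al.Order300

open Finset

/-- The order sequence of a finite group: the sorted list of the orders of all its elements. -/
noncomputable def orderSeq (G : Type) [Group G] [Fintype G] : List ℕ :=
  ((univ : Finset G).val.map orderOf).sort (· ≤ ·)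

/-- The sequence `L` dominates the sequence `M` (of the same length): each term of `L` is at least
the term of `M` at the same place. -/
def Dominates (L M : List ℕ) : Prop := List.Forall₂ (fun a b => b ≤ a) L M

/-- The order sequence of `G` is minimal among the order sequences of the groups of order `|G|`. -/
def HasMinSeq (G : Type) [Group G] [Fintype G] : Prop :=
  ∀ (H : Type) [Group H] [Fintype H], Fintype.card H = Fintype.card G →
    Dominates (orderSeq G) (orderSeq H) → orderSeq H = orderSeq G

theorem forall₂_of_count : ∀ (L M : List ℕ), L.Pairwise (· ≤ ·) → M.Pairwise (· ≤ ·) →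
    L.length = M.length → (∀ k, L.countP (· ≤ k) ≤ M.countP (· ≤ k)) → Dominates L M
  | [], [], _, _, _, _ => List.Forall₂.nil
  | [], b :: M, _, _, h, _ => by simp at h
  | a :: L, [], _, _, h, _ => by simp at h
  | a :: L, b :: M, hL, hM, h, hc => by
    rw [List.pairwise_cons] at hL hM
    have hba : b ≤ a := by
      have h1 := hc a
      rw [List.countP_cons_of_pos (by simp)] at h1
      have h2 : 0 < (b :: M).countP (· ≤ a) := by omega
      rw [List.countP_pos_iff] at h2
      obtain ⟨c, hc1, hc2⟩ := h2
      have hc3 : c ≤ a := by simpa using hc2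
      rcases List.mem_cons.1 hc1 with rfl | hc1
      · exact hc3
      · exact (hM.1 c hc1).trans hc3
    refine List.Forall₂.cons hba (forall₂_of_count L M hL.2 hM.2 (by simpa using h) ?_)
    intro k
    rcases Nat.lt_or_ge k a with hk | hk
    · have h0 : L.countP (· ≤ k) = 0 := by
        rw [List.countP_eq_zero]
        intro c hc1
        have := hL.1 c hc1
        simp only [decide_eq_true_eq, not_le]
        omega
      rw [h0]
      exact Nat.zero_le _
    · have h1 := hc k
      rw [List.countP_cons_of_pos (by simpa using hk),
        List.countP_cons_of_pos (by simpa using hba.trans hk)] at h1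
      omega

theorem count_orderSeq (G : Type) [Group G] [Fintype G] (k : ℕ) :
    (orderSeq G).countP (· ≤ k) = (univ.filter (fun x : G => orderOf x ≤ k)).card := by
  have h1 : ((orderSeq G : List ℕ) : Multiset ℕ) = (univ : Finset G).val.map orderOf := by
    unfold orderSeq
    exact Multiset.sort_eq _ _
  have h2 := Multiset.coe_countP (fun a : ℕ => a ≤ k) (orderSeq G)
  rw [← h2, h1, Multiset.countP_map]
  rfl

theorem length_orderSeq (G : Type) [Group G] [Fintype G] :
    (orderSeq G).length = Fintype.card G := by
  unfold orderSeq
  rw [Multiset.length_sort, Multiset.card_map]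
  rfl

/-- the matrices (by their entries) of the complement in `SL(2, 5)` -/
def mat : QuaternionGroup 3 → ZMod 5 × ZMod 5 × ZMod 5 × ZMod 5
  | .a i => ![(1, 0, 0, 1), (0, 4, 1, 1), (4, 4, 1, 0), (4, 0, 0, 4), (0, 1, 4, 4), (1, 1, 4, 0)] i
  | .xa i => ![(0, 2, 2, 0), (2, 2, 0, 3), (2, 0, 3, 3), (0, 3, 3, 0), (3, 3, 0, 2), (3, 0, 2, 2)] i

theorem mat_mul : ∀ g h : QuaternionGroup 3, mat (g * h) =
    ((mat g).1 * (mat h).1 + (mat g).2.1 * (mat h).2.2.1,
     (mat g).1 * (mat h).2.1 + (mat g).2.1 * (mat h).2.2.2,
     (mat g).2.2.1 * (mat h).1 + (mat g).2.2.2 * (mat h).2.2.1,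
     (mat g).2.2.1 * (mat h).2.1 + (mat g).2.2.2 * (mat h).2.2.2) := by
  decide +kernel

theorem mat_one : mat 1 = (1, 0, 0, 1) := by
  decide +kernel

/-- the group of order 300: pairs of a vector `(u, v)` over the field with five elements and an
element of the dicyclic group of order 12 -/
structure H300 where
  /-- first coordinate -/
  u : ZMod 5
  /-- second coordinate -/
  v : ZMod 5
  /-- the element of the complement -/
  g : QuaternionGroup 3
  deriving DecidableEq, Fintype

@[ext]
theorem H300.ext' {x y : H300} (hu : x.u = y.u) (hv : x.v = y.v) (hg : x.g = y.g) : x = y := by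
  cases x
  cases y
  simp_all

instance : Mul H300 where
  mul x y := ⟨x.u + ((mat x.g).1 * y.u + (mat x.g).2.1 * y.v),
    x.v + ((mat x.g).2.2.1 * y.u + (mat x.g).2.2.2 * y.v), x.g * y.g⟩

instance : One H300 where
  one := ⟨0, 0, 1⟩

instance : Inv H300 where
  inv x := ⟨-((mat x.g⁻¹).1 * x.u + (mat x.g⁻¹).2.1 * x.v),
    -((mat x.g⁻¹).2.2.1 * x.u + (mat x.g⁻¹).2.2.2 * x.v), x.g⁻¹⟩

theorem H300.mul_u (x y : H300) :
    (x * y).u = x.u + ((mat x.g).1 * y.u + (mat x.g).2.1 * y.v) := rfl

theorem H300.mul_v (x y : H300) :
    (x * y).v = x.v + ((mat x.g).2.2.1 * y.u + (mat x.g).2.2.2 * y.v) := rfl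

theorem H300.mul_g (x y : H300) : (x * y).g = x.g * y.g := rfl

theorem H300.one_u : (1 : H300).u = 0 := rfl

theorem H300.one_v : (1 : H300).v = 0 := rfl

theorem H300.one_g : (1 : H300).g = 1 := rfl

theorem H300.inv_u (x : H300) :
    (x⁻¹).u = -((mat x.g⁻¹).1 * x.u + (mat x.g⁻¹).2.1 * x.v) := rfl

theorem H300.inv_v (x : H300) :
    (x⁻¹).v = -((mat x.g⁻¹).2.2.1 * x.u + (mat x.g⁻¹).2.2.2 * x.v) := rfl

theorem H300.inv_g (x : H300) : (x⁻¹).g = x.g⁻¹ := rfl

instance : Group H300 where
  mul_assoc x y z := by
    apply H300.ext'
    · simp only [H300.mul_u, H300.mul_v, H300.mul_g, mat_mul]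
      ring
    · simp only [H300.mul_u, H300.mul_v, H300.mul_g, mat_mul]
      ring
    · simp only [H300.mul_g, mul_assoc]
  one_mul x := by
    apply H300.ext'
    · simp [H300.mul_u, H300.one_u, H300.one_g, mat_one]
    · simp [H300.mul_v, H300.one_v, H300.one_g, mat_one]
    · simp [H300.mul_g, H300.one_g]
  mul_one x := by
    apply H300.ext'
    · simp [H300.mul_u, H300.one_u, H300.one_v]
    · simp [H300.mul_v, H300.one_u, H300.one_v]
    · simp [H300.mul_g, H300.one_g]
  inv_mul_cancel x := by
    apply H300.ext'
    · simp [H300.mul_u, H300.inv_u, H300.inv_g, H300.one_u]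
    · simp [H300.mul_v, H300.inv_v, H300.inv_g, H300.one_v]
    · simp [H300.mul_g, H300.inv_g, H300.one_g]

theorem card_H300 : Fintype.card H300 = 300 := by
  decide +kernel

theorem two_H300 : (univ.filter (fun x : H300 => x * x = 1)).card = 26 := by
  decide +kernel

theorem three_H300 : (univ.filter (fun x : H300 => x * x * x = 1)).card = 51 := by
  decide +kernel

theorem four_H300 : (univ.filter (fun x : H300 => x * x * x * x = 1)).card = 176 := by
  decide +kernel

theorem all_H300 : ∀ x : H300, x * x * x * x = 1 ∨ x * x * x * x * x = 1 ∨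
    x * x * x * x * x * x = 1 := by
  decide +kernel

theorem le_H300 : 26 ≤ (univ.filter (fun x : H300 => orderOf x ≤ 2)).card ∧
    51 ≤ (univ.filter (fun x : H300 => orderOf x ≤ 3)).card ∧
    176 ≤ (univ.filter (fun x : H300 => orderOf x ≤ 4)).card := by
  refine ⟨?_, ?_, ?_⟩
  · rw [← two_H300]
    apply Finset.card_le_card
    intro x hx
    rw [mem_filter] at hx ⊢
    exact ⟨mem_univ _, orderOf_le_of_pow_eq_one (by norm_num) (by rw [pow_two]; exact hx.2)⟩
  · rw [← three_H300]
    apply Finset.card_le_card
    intro x hx
    rw [mem_filter] at hx ⊢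
    exact ⟨mem_univ _, orderOf_le_of_pow_eq_one (by norm_num)
      (by rw [pow_succ, pow_two]; exact hx.2)⟩
  · rw [← four_H300]
    apply Finset.card_le_card
    intro x hx
    rw [mem_filter] at hx ⊢
    exact ⟨mem_univ _, orderOf_le_of_pow_eq_one (by norm_num)
      (by rw [pow_succ, pow_succ, pow_two]; exact hx.2)⟩

theorem order_H300 (x : H300) : orderOf x ≤ 6 := by
  rcases all_H300 x with h | h | h
  · refine (orderOf_le_of_pow_eq_one (n := 4) (by norm_num) ?_).trans (by norm_num)
    rw [pow_succ, pow_succ, pow_two]
    exact h
  · refine (orderOf_le_of_pow_eq_one (n := 5) (by norm_num) ?_).trans (by norm_num)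
    rw [pow_succ, pow_succ, pow_succ, pow_two]
    exact h
  · refine (orderOf_le_of_pow_eq_one (n := 6) (by norm_num) ?_).trans (by norm_num)
    rw [pow_succ, pow_succ, pow_succ, pow_succ, pow_two]
    exact h

theorem mono (G : Type) [Group G] [Fintype G] {k l : ℕ} (h : k ≤ l) :
    (univ.filter (fun x : G => orderOf x ≤ k)).card ≤
      (univ.filter (fun x : G => orderOf x ≤ l)).card := by
  apply Finset.card_le_card
  intro x hx
  rw [mem_filter] at hx ⊢
  exact ⟨hx.1, hx.2.trans h⟩

theorem not_min (G : Type) [Group G] [Fintype G] (hG : Fintype.card G = 300)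
    (hns : ¬ Group.IsSolvable G) : ¬ HasMinSeq G := by
  intro hmin
  obtain ⟨c2, c4, c5⟩ := Pool.Agent.R679.N300.counts (G := G)
    (by rw [Nat.card_eq_fintype_card, hG]) hns
  have c2' : (univ.filter (fun x : G => orderOf x ≤ 2)).card ≤ 26 := by convert c2
  have c4' : (univ.filter (fun x : G => orderOf x ≤ 4)).card ≤ 36 := by convert c4
  have c5' : (univ.filter (fun x : G => orderOf x ≤ 5)).card ≤ 161 := by convert c5
  obtain ⟨d2, d3, d4⟩ := le_H300
  have hdom : Dominates (orderSeq G) (orderSeq H300) := by
    apply forall₂_of_count
    · exact Multiset.pairwise_sort _ _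
    · exact Multiset.pairwise_sort _ _
    · rw [length_orderSeq, length_orderSeq, hG, card_H300]
    · intro k
      rw [count_orderSeq, count_orderSeq]
      rcases Nat.lt_or_ge k 1 with h | h
      · have h0 : (univ.filter (fun x : G => orderOf x ≤ k)) = ∅ := by
          rw [Finset.filter_eq_empty_iff]
          intro x _
          have := orderOf_pos x
          omega
        rw [h0, Finset.card_empty]
        exact Nat.zero_le _
      rcases Nat.lt_or_ge k 2 with h | h
      · have hk : k = 1 := by omega
        subst hk
        have h1 : (univ.filter (fun x : G => orderOf x ≤ 1)) ⊆ {1} := by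
          intro x hx
          rw [mem_filter] at hx
          rw [mem_singleton, ← orderOf_eq_one_iff]
          have := orderOf_pos x
          omega
        have h2 : ({1} : Finset H300) ⊆ (univ.filter (fun x : H300 => orderOf x ≤ 1)) := by
          intro x hx
          rw [mem_singleton] at hx
          rw [mem_filter, hx, orderOf_one]
          exact ⟨mem_univ _, le_rfl⟩
        exact (Finset.card_le_card h1).trans (by simpa using Finset.card_le_card h2)
      rcases Nat.lt_or_ge k 3 with h | h
      · have hk : k = 2 := by omega
        subst hk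
        omega
      rcases Nat.lt_or_ge k 4 with h | h
      · have hk : k = 3 := by omega
        subst hk
        have := mono G (show 3 ≤ 4 by norm_num)
        omega
      rcases Nat.lt_or_ge k 6 with h | h
      · have e1 := mono G (show k ≤ 5 by omega)
        have e2 := mono H300 (show 4 ≤ k by omega)
        omega
      · have e1 : (univ.filter (fun x : H300 => orderOf x ≤ k)) = univ := by
          rw [Finset.filter_eq_self]
          intro x _
          exact (order_H300 x).trans h
        rw [e1, Finset.card_univ, card_H300, ← hG]
        exact Finset.card_le_univ _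
  have heq := hmin H300 (by rw [hG, card_H300]) hdom
  have h4 := count_orderSeq G 4
  rw [← heq, count_orderSeq] at h4
  omega

theorem exists_nonsolvable : ∃ (G : Type) (_ : Group G) (_ : Fintype G),
    Fintype.card G = 300 ∧ ¬ Group.IsSolvable G := by
  refine ⟨alternatingGroup (Fin 5) × Multiplicative (ZMod 5), inferInstance, inferInstance, ?_, ?_⟩
  · have h1 : Fintype.card (alternatingGroup (Fin 5)) = 60 := by
      have := two_mul_card_alternatingGroup (α := Fin 5)
      rw [Fintype.card_perm, Fintype.card_fin] at this
      have h5 : Nat.factorial 5 = 120 := rfl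
      omega
    rw [Fintype.card_prod, h1, Fintype.card_multiplicative, ZMod.card]
  · intro h
    have h1 : Group.IsSolvable (alternatingGroup (Fin 5)) :=
      Group.isSolvable_of_surjective (f := MonoidHom.fst (alternatingGroup (Fin 5))
        (Multiplicative (ZMod 5))) Prod.fst_surjective
    have h2 : IsSimpleGroup (alternatingGroup (Fin 5)) := inferInstance
    have h3 := IsSimpleGroup.comm_iff_isSolvable.2 h1
    have h4 := h3 ⟨Equiv.swap 0 1 * Equiv.swap 1 2, by
      rw [Equiv.Perm.mem_alternatingGroup]; decide⟩
      ⟨Equiv.swap 0 1 * Equiv.swap 1 3, by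
      rw [Equiv.Perm.mem_alternatingGroup]; decide⟩
    have h5 := congrArg Subtype.val h4
    revert h5
    decide

/-- There is a nonsolvable group of order 300, and no nonsolvable group of order 300 has a minimal
order sequence. -/
theorem result : (∃ (G : Type) (_ : Group G) (_ : Fintype G),
      Fintype.card G = 300 ∧ ¬ Group.IsSolvable G) ∧
    ∀ (G : Type) [Group G] [Fintype G], Fintype.card G = 300 → ¬ Group.IsSolvable G →
      ¬ HasMinSeq G :=
  ⟨exists_nonsolvable, fun G _ _ hG hns => not_min G hG hns⟩

end Pool.Agent.Results.MP_e15593_al.Order300
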